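import Mathlib
import Pool.Agent.H323FY.Hilb

/-!
# Order complexes of uniform matroid lattices and Chow ring Hilbert series

For all `1 ≤ r < n` the `h`-polynomial of the order complex of the lattice of flats `L(U_{n,r})` is
`t^2 * ∑_{j=1}^r C(n-j-1, r-j) H(A(U_{n,j}), t)`, where `A(U_{n,j})` is the Chow ring over `ℚ`, given by
generators and relations.  All definitions used in the statement are in `Pool.Agent.H323FY.Defs`.

The proof establishes the Feichtner-Yuzvinsky monomial basis of `A(U_{n,j})` (spanning by a weight
filtration, linear independence by an explicit degree functional), and then compares generating functions.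
-/

namespace Pool.Agent.Results.MP_0f948c_co.OrderComplexHilbert

open Pool.Agent.H323FY

/-- `h(Δ(L(U_{n,r})), t) = t^2 * ∑_{j=1}^r C(n-j-1, r-j) * H(A(U_{n,j}), t)` for all `1 ≤ r < n`
(an identity of power series with integer coefficients; the left side is a polynomial). -/
theorem result (n r : ℕ) (hr : 1 ≤ r) (hrn : r < n) :
    ((hPoly (orderComplex (Flats n r)) : Polynomial ℤ) : PowerSeries ℤ) =
      PowerSeries.X ^ 2 * ∑ j ∈ Finset.Icc 1 r,
        (((n - j - 1).choose (r - j) : ℕ) : PowerSeries ℤ) * hilbertSeries n j :=
  main n r hr hrn

end Pool.Agent.Results.MP_0f948c_co.OrderComplexHilbert
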